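import Pool.Agent.Y995.LG.Stm
import Pool.Agent.H984R4.NP.PL

/-!
Arcs of the limit are arcs of the limits of the exploration paths (helper260).
-/

set_option autoImplicit false

namespace Pool.Agent.Y260.LG

open Pool.Agent.Y995.LG
open H984P H984N MeasureTheory Filter Topology
open scoped ENNReal

theorem per_eq (c : C(unitInterval, ℂ)) :
    per c = (Set.IccExtend (zero_le_one : (0 : ℝ) ≤ 1) c) ∘ Int.fract := by
  funext t
  simp only [per, Function.comp]
  rw [Set.IccExtend_of_mem _ _ ⟨Int.fract_nonneg t, (Int.fract_lt_one t).le⟩]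

theorem per_cont {c : C(unitInterval, ℂ)} (h : c 0 = c 1) : Continuous (per c) := by
  rw [per_eq]
  apply ContinuousOn.comp_fract''
  · exact (c.continuous.Icc_extend').continuousOn
  · rw [Set.IccExtend_of_mem _ _ ⟨le_refl 0, zero_le_one⟩,
      Set.IccExtend_of_mem _ _ ⟨zero_le_one, le_refl 1⟩]
    exact h

theorem norm_mk_le (x y : ℝ) : ‖(⟨x, y⟩ : ℂ)‖ ≤ |x| + |y| := Complex.norm_le_abs_re_add_abs_im _

/-- One step. -/
theorem step_le (n : ℕ) (F : Set Edge) (σ : St) :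
    ‖H342L.pt n (nxt F σ).1 - H342L.pt n σ.1‖ ≤ 2 / (n : ℝ) := by
  have h0 : (0 : ℝ) ≤ 2 / (n : ℝ) := by positivity
  have key : ∀ a b c d : ℤ, |a - c| ≤ 1 → |b - d| ≤ 1 →
      ‖H342L.pt n (a, b) - H342L.pt n (c, d)‖ ≤ 2 / (n : ℝ) := by
    intro a b c d h1 h2
    have h1' : |(a : ℝ) - c| ≤ 1 := by exact_mod_cast h1
    have h2' : |(b : ℝ) - d| ≤ 1 := by exact_mod_cast h2
    have e : H342L.pt n (a, b) - H342L.pt n (c, d) =
        (⟨((a : ℝ) - c) / n, ((b : ℝ) - d) / n⟩ : ℂ) := by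
      unfold H342L.pt
      apply Complex.ext
      · simp [sub_div]
      · simp [sub_div]
    rw [e]
    refine (norm_mk_le _ _).trans ?_
    rw [abs_div, abs_div, Nat.abs_cast, ← add_div]
    exact div_le_div_of_nonneg_right (by linarith) (Nat.cast_nonneg n)
  obtain ⟨⟨a, b⟩, d⟩ := σ
  unfold nxt
  split_ifs
  · cases d <;> simp only [mv] <;> apply key <;> simp
  · cases d <;> simp only [rt] <;> simp [h0]

theorem orb_dist (n : ℕ) (F : Set Edge) (σ : St) (j : ℕ) :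
    ‖H342L.pt n (orb F σ (j + 1)).1 - H342L.pt n (orb F σ j).1‖ ≤ 2 / (n : ℝ) := by
  rw [orb_succ]
  exact step_le n F _

/-- The closed lattice path stays close to its starting point. -/
theorem poly_dist (n : ℕ) (F : Set Edge) (σ : St) (N : ℕ) (t : unitInterval) :
    ‖H342T.poly (fun j => H342L.pt n (orb F σ j).1) N t - H342L.pt n σ.1‖ ≤ N * (2 / (n : ℝ)) := by
  have e : H342T.poly (fun j => H342L.pt n (orb F σ j).1) N t - H342L.pt n σ.1 =
      ∑ j ∈ Finset.range N, ((max 0 (min 1 ((N : ℝ) * (t : ℝ) - j)) : ℝ) : ℂ) *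
        (H342L.pt n (orb F σ (j + 1)).1 - H342L.pt n (orb F σ j).1) := by
    change H342L.pt n (orb F σ 0).1 + _ - _ = _
    rw [orb_zero, add_sub_cancel_left]
  rw [e]
  refine (norm_sum_le _ _).trans ?_
  have h : ∀ j ∈ Finset.range N, ‖((max 0 (min 1 ((N : ℝ) * (t : ℝ) - j)) : ℝ) : ℂ) *
      (H342L.pt n (orb F σ (j + 1)).1 - H342L.pt n (orb F σ j).1)‖ ≤ 2 / (n : ℝ) := by
    intro j _
    rw [norm_mul, Complex.norm_real, Real.norm_eq_abs, abs_of_nonneg (le_max_left _ _)]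
    have h1 : max 0 (min 1 ((N : ℝ) * (t : ℝ) - j)) ≤ 1 := max_le zero_le_one (min_le_left _ _)
    calc _ ≤ 1 * (2 / (n : ℝ)) := mul_le_mul h1 (orb_dist n F σ j) (norm_nonneg _) zero_le_one
      _ = _ := one_mul _
  refine (Finset.sum_le_sum h).trans ?_
  rw [Finset.sum_const, Finset.card_range, nsmul_eq_mul]

/-- Value of the piecewise linear curve. -/
theorem pl_at (N : ℕ) (p : ℕ → ℂ) (k : ℕ) (hk : k ≤ N) (s : unitInterval)
    (hs : (s : ℝ) = (k : ℝ) / N) : pl N p s = p k := by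
  rcases Nat.eq_zero_or_pos N with h0 | h0
  · subst h0
    have : k = 0 := by omega
    subst this
    rw [pl_apply']
    simp
  have hN : (0 : ℝ) < N := by exact_mod_cast h0
  have hsN : (s : ℝ) * N = k := by rw [hs]; field_simp
  rcases Nat.lt_or_ge k N with h | h
  · rw [pl_seg h (by rw [hsN]) (by rw [hsN]; linarith), hsN]
    simp
  · have : k = N := by omega
    subst this
    have h1 : s = 1 := by
      apply Subtype.ext
      rw [hs]
      simp [hN.ne']
    rw [h1, pl_one]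

/-- The points of the two paths are close. -/
theorem pos_dist (κ : Loc) (n : ℕ) (hn : 0 < n) (τ : St) :
    ‖(κ.z + pos (1 / (n : ℝ)) (shS (-κ.s n) τ)) - H342L.pt n τ.1‖ ≤ 4 / (n : ℝ) := by
  have hn' : (0 : ℝ) < n := by exact_mod_cast hn
  have h1 := Int.floor_le ((n : ℝ) * κ.β)
  have h2 := (Int.lt_floor_add_one ((n : ℝ) * κ.β)).le
  have h3 := Int.floor_le ((n : ℝ) * κ.b)
  have h4 := (Int.lt_floor_add_one ((n : ℝ) * κ.b)).le
  have key : ∀ (a b : ℤ) (x y : ℝ), |x| ≤ 1 → |y| ≤ 1 →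
      ‖(κ.z + (⟨1 / (n : ℝ) * (((a - ⌊(n : ℝ) * κ.β⌋ : ℤ) : ℝ) + x),
        1 / (n : ℝ) * (((b - (⌊(n : ℝ) * κ.b⌋ + 1) : ℤ) : ℝ) + 1 + y)⟩ : ℂ)) -
        H342L.pt n (a, b)‖ ≤ 4 / (n : ℝ) := by
    intro a b x y hx hy
    have e : (κ.z + (⟨1 / (n : ℝ) * (((a - ⌊(n : ℝ) * κ.β⌋ : ℤ) : ℝ) + x),
        1 / (n : ℝ) * (((b - (⌊(n : ℝ) * κ.b⌋ + 1) : ℤ) : ℝ) + 1 + y)⟩ : ℂ)) -
        H342L.pt n (a, b) =
        (⟨(((n : ℝ) * κ.β - ⌊(n : ℝ) * κ.β⌋) + x) / n,
          (((n : ℝ) * κ.b - ⌊(n : ℝ) * κ.b⌋) + y) / n⟩ : ℂ) := by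
      unfold H342L.pt Loc.z
      apply Complex.ext
      · simp only [Complex.add_re, Complex.sub_re]
        push_cast
        field_simp
        ring
      · simp only [Complex.add_im, Complex.sub_im]
        push_cast
        field_simp
        ring
    rw [e]
    refine (norm_mk_le _ _).trans ?_
    rw [abs_div, abs_div, Nat.abs_cast, ← add_div]
    refine div_le_div_of_nonneg_right ?_ hn'.le
    have h5 := abs_add_le ((n : ℝ) * κ.β - ⌊(n : ℝ) * κ.β⌋) x
    have h6 := abs_add_le ((n : ℝ) * κ.b - ⌊(n : ℝ) * κ.b⌋) y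
    have h7 : |(n : ℝ) * κ.β - ⌊(n : ℝ) * κ.β⌋| ≤ 1 := by
      rw [abs_le]; constructor <;> linarith
    have h8 : |(n : ℝ) * κ.b - ⌊(n : ℝ) * κ.b⌋| ≤ 1 := by
      rw [abs_le]; constructor <;> linarith
    linarith
  have hq : |(1 / 4 : ℝ)| ≤ 1 := by rw [abs_of_nonneg] <;> norm_num
  have hq' : |(-(1 / 4) : ℝ)| ≤ 1 := by rw [abs_neg, abs_of_nonneg] <;> norm_num
  obtain ⟨⟨a, b⟩, d⟩ := τ
  cases d
  all_goals
    simp only [shS, pos, Loc.s, Prod.fst_neg, Prod.snd_neg]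
  · have := key a b (1 / 4) (1 / 4) hq hq
    convert this using 6 <;> push_cast <;> ring
  · have := key a b (-(1 / 4)) (1 / 4) hq' hq
    convert this using 6 <;> push_cast <;> ring
  · have := key a b (-(1 / 4)) (-(1 / 4)) hq' hq'
    convert this using 6 <;> push_cast <;> ring
  · have := key a b (1 / 4) (-(1 / 4)) hq hq'
    convert this using 6 <;> push_cast <;> ring

theorem left_right (κ : Loc) (z : ℂ) (h1 : z ∈ κ.left) (h2 : z ∈ κ.right) : False := by
  have e1 := κ.lα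
  have e2 := κ.αr
  have e3 := κ.lβ
  have e4 := κ.βr
  have e5 := κ.bh
  rcases h1 with ⟨h1, h1', h1''⟩ | ⟨h1, h1', h1''⟩ | ⟨h1, h1', h1''⟩ <;>
    rcases h2 with ⟨h2, h2', h2''⟩ | ⟨h2, h2', h2''⟩ | ⟨h2, h2', h2''⟩ <;> linarith

theorem seg (hD : S_D1) (hS : S_SH) (hP : S_PERJ) (hE : S_EXIT) (hL : S_LAW) : S_SEG := by
  intro κ p q u v hp hu hC hG n F w x hn hx hxp hY
  obtain ⟨n1, hn1⟩ := hL κ
  have hcont := per_cont hp
  have hx1 : Tendsto (fun m => (x m).1) atTop (𝓝 p.1) := (continuous_fst.tendsto p).comp hxp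
  have hchoice : ∀ k : ℕ, ∃ m : ℕ, k ≤ m ∧ 0 < n m ∧
      dist (x m).1 p.1 < 1 / ((k : ℝ) + 1) ∧
      ∃ (σ : St) (N a M k0 : ℕ), 0 < N ∧ orb (↑(F m)) σ N = σ ∧
        x m = (H342T.poly (fun j => H342L.pt (n m) (orb (↑(F m)) σ j).1) N,
          (N : ℝ) / ((n m : ℕ) : ℝ) ^ (7/4 : ℝ)) ∧
        1 ≤ M ∧ |(a : ℝ) / N - u| ≤ 1 / ((k : ℝ) + 1) ∧
        |((a + M : ℕ) : ℝ) / N - v| ≤ 1 / ((k : ℝ) + 1) ∧
        k0 + (M - 1) ≤ (κ.dm (n m)).len (κ.cfg (n m) (F m)) ∧
        ∀ i < M, (κ.dm (n m)).walk (κ.cfg (n m) (F m)) (k0 + i) =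
          shS (-κ.s (n m)) (orb (↑(F m)) σ (a + 1 + i)) := by
    intro k
    have hε : (0 : ℝ) < 1 / ((k : ℝ) + 1) := by positivity
    obtain ⟨η, hη, n0, hn0⟩ := hE κ p.1 u v hp hu hC hG _ hε
    have hd0 := tendsto_iff_dist_tendsto_zero.1 hx1
    obtain ⟨m, h1, h2, h3, h4, h5, h6⟩ := (((tendsto_order.1 hd0).2 η hη).and
      (((tendsto_order.1 hd0).2 _ hε).and ((hn.eventually_ge_atTop n0).and
      ((hn.eventually_ge_atTop n1).and ((hn.eventually_ge_atTop 1).and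
      (eventually_ge_atTop k)))))).exists
    obtain ⟨σ, N, hN, -, -, horb, -, hxm⟩ := hx m
    have hd : dist (H342T.poly (fun j => H342L.pt (n m) (orb (↑(F m)) σ j).1) N) p.1 < η := by
      rw [hxm] at h1
      exact h1
    obtain ⟨a, M, hDC, ha, hM⟩ := hn0 (n m) h3 (F m) σ N hN horb hd
    have hcfg : ∀ e, e ∈ κ.cfg (n m) (F m) ↔ e ∈ (κ.dm (n m)).edges ∧
        e ∈ {e : Edge | sh (κ.s (n m)) e ∈ (↑(F m) : Set Edge)} := by
      intro e
      simp [Loc.cfg]
    have horb' : ∀ j, orb {e : Edge | sh (κ.s (n m)) e ∈ (↑(F m) : Set Edge)}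
        (shS (-κ.s (n m)) (orb (↑(F m)) σ a)) j =
          shS (-κ.s (n m)) (orb (↑(F m)) σ (a + j)) := by
      intro j
      rw [hS, add_comm a j, orb_add]
    have hDC' : DCrs (κ.dm (n m)) (orb {e : Edge | sh (κ.s (n m)) e ∈ (↑(F m) : Set Edge)}
        (shS (-κ.s (n m)) (orb (↑(F m)) σ a))) M := by
      have e := funext horb'
      rw [e]
      exact hDC
    obtain ⟨k0, hk0, hwalk⟩ := hD _ (hn1 (n m) h4).1 _ _ hcfg _ M hDC'
    refine ⟨m, h6, h5, h2, σ, N, a, M, k0, hN, horb, hxm, hDC.1, ha, hM, hk0, ?_⟩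
    intro i hi
    rw [hwalk i hi, horb', add_assoc]
  choose m hm hmpos hmd σ N a M k0 hN horb hxm hM1 ha hv hk0 hwalk using hchoice
  obtain ⟨L, hLd⟩ : ∃ L : ℕ → ℕ, ∀ k, (κ.dm (n (m k))).len (κ.cfg (n (m k)) (F (m k))) = L k :=
    ⟨_, fun _ => rfl⟩
  have hk0L : ∀ k, k0 k + (M k - 1) ≤ L k := fun k => by rw [← hLd]; exact hk0 k
  have hmt : Tendsto m atTop atTop := tendsto_atTop_mono hm tendsto_id
  have hnt' : Tendsto (fun k => ((n (m k) : ℕ) : ℝ)) atTop atTop :=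
    tendsto_natCast_atTop_atTop.comp (hn.comp hmt)
  have hinv : Tendsto (fun k : ℕ => 1 / ((k : ℝ) + 1)) atTop (𝓝 0) :=
    tendsto_one_div_add_atTop_nhds_zero_nat
  have hdist : Tendsto (fun k => dist (x (m k)).1 p.1) atTop (𝓝 0) :=
    squeeze_zero (fun _ => dist_nonneg) (fun k => (hmd k).le) hinv
  have hau : Tendsto (fun k => (a k : ℝ) / N k) atTop (𝓝 u) := by
    rw [tendsto_iff_dist_tendsto_zero]
    exact squeeze_zero (fun _ => dist_nonneg) (fun k => by rw [Real.dist_eq]; exact ha k) hinv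
  have hav : Tendsto (fun k => ((a k + M k : ℕ) : ℝ) / N k) atTop (𝓝 v) := by
    rw [tendsto_iff_dist_tendsto_zero]
    exact squeeze_zero (fun _ => dist_nonneg) (fun k => by rw [Real.dist_eq]; exact hv k) hinv
  have hMN : Tendsto (fun k => (M k : ℝ) / N k) atTop (𝓝 (v - u)) := by
    refine (hav.sub hau).congr fun k => ?_
    push_cast
    ring
  have hne : per p.1 u ≠ per p.1 v := by
    intro h
    rcases hC.2.2.2 with ⟨h1, h2⟩ | ⟨h1, h2⟩
    · rw [h] at h1
      exact left_right κ _ h1 h2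
    · rw [h] at h1
      exact left_right κ _ h2 h1
  have hNt : Tendsto (fun k => (N k : ℝ)) atTop atTop := by
    have hd : 0 < dist (per p.1 u) (per p.1 v) := dist_pos.2 hne
    obtain ⟨d, hdd⟩ : ∃ d, d = dist (per p.1 u) (per p.1 v) := ⟨_, rfl⟩
    rw [← hdd] at hd
    have hb : ∀ᶠ k in atTop, (d / 8) * ((n (m k) : ℕ) : ℝ) ≤ N k := by
      filter_upwards [(tendsto_order.1 hdist).2 (d / 4) (by positivity)] with k hk
      have hpt : ∀ t : ℝ, dist (per p.1 t) (H342L.pt (n (m k)) (σ k).1) ≤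
          dist (x (m k)).1 p.1 + N k * (2 / ((n (m k) : ℕ) : ℝ)) := by
        intro t
        refine (dist_triangle _ ((x (m k)).1
          ⟨Int.fract t, Int.fract_nonneg t, (Int.fract_lt_one t).le⟩) _).trans
          (add_le_add ?_ ?_)
        · rw [dist_comm]
          exact ContinuousMap.dist_apply_le_dist _
        · rw [hxm k, dist_eq_norm]
          exact poly_dist _ _ _ _ _
      have h1 := hpt u
      have h2 := hpt v
      have h3 := dist_triangle_right (per p.1 u) (per p.1 v) (H342L.pt (n (m k)) (σ k).1)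
      rw [← hdd] at h3
      have hnp : (0 : ℝ) < ((n (m k) : ℕ) : ℝ) := by exact_mod_cast hmpos k
      have h4 : d / 2 ≤ 4 * ((N k : ℝ) / ((n (m k) : ℕ) : ℝ)) := by
        have : (N k : ℝ) * (2 / ((n (m k) : ℕ) : ℝ)) = 2 * ((N k : ℝ) / ((n (m k) : ℕ) : ℝ)) := by
          ring
        rw [this] at h1 h2
        linarith
      have h5 : d / 8 ≤ (N k : ℝ) / ((n (m k) : ℕ) : ℝ) := by linarith
      exact (le_div_iff₀ hnp).1 h5
    exact tendsto_atTop_mono' _ hb (hnt'.const_mul_atTop (by positivity))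
  have hNpos : ∀ k, (0 : ℝ) < N k := fun k => by exact_mod_cast hN k
  have hMt : Tendsto (fun k => (M k : ℝ)) atTop atTop := by
    refine (hMN.pos_mul_atTop (sub_pos.2 hC.1) hNt).congr fun k => ?_
    exact div_mul_cancel₀ _ (hNpos k).ne'
  have hM1' : ∀ k, ((M k - 1 : ℕ) : ℝ) = (M k : ℝ) - 1 := fun k => by
    rw [Nat.cast_sub (hM1 k)]
    simp
  have hLt : Tendsto (fun k => (L k : ℝ)) atTop atTop := by
    refine tendsto_atTop_mono (fun k => ?_) (tendsto_atTop_add_const_right _ (-1 : ℝ) hMt)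
    have h1 : ((M k - 1 : ℕ) : ℝ) ≤ L k := by exact_mod_cast (by have := hk0L k; omega)
    rw [hM1'] at h1
    linarith
  -- the limit times
  have hI : ∀ j k : ℕ, j ≤ L k → (j : ℝ) / L k ∈ Set.Icc (0 : ℝ) 1 := fun j k hj =>
    ⟨by positivity, div_le_one_of_le₀ (by exact_mod_cast hj) (Nat.cast_nonneg _)⟩
  obtain ⟨⟨u', v'⟩, hmem, φ, hφ, hlim⟩ := (isCompact_Icc.prod isCompact_Icc).tendsto_subseq
    (x := fun k => (((k0 k : ℕ) : ℝ) / L k, ((k0 k + (M k - 1) : ℕ) : ℝ) / L k))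
    (fun k => (⟨hI _ k (by have := hk0L k; omega), hI _ k (hk0L k)⟩ :
      (((k0 k : ℕ) : ℝ) / L k, ((k0 k + (M k - 1) : ℕ) : ℝ) / L k) ∈
        Set.Icc (0 : ℝ) 1 ×ˢ Set.Icc (0 : ℝ) 1))
  have hu' : Tendsto (fun k => ((k0 (φ k) : ℕ) : ℝ) / L (φ k)) atTop (𝓝 u') :=
    (continuous_fst.tendsto _).comp hlim
  have hv' : Tendsto (fun k => ((k0 (φ k) + (M (φ k) - 1) : ℕ) : ℝ) / L (φ k)) atTop (𝓝 v') :=
    (continuous_snd.tendsto _).comp hlim
  have hφt := hφ.tendsto_atTop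
  have huv' : u' ≤ v' := le_of_tendsto_of_tendsto' hu' hv' fun k =>
    div_le_div_of_nonneg_right (by push_cast; linarith [(Nat.cast_nonneg (M (φ k) - 1) : (0:ℝ) ≤ _)])
      (Nat.cast_nonneg _)
  have hYm : Tendsto (fun k => κ.Y (n (m k)) (F (m k))) atTop (𝓝 q) := hY.comp hmt
  refine ⟨u', v', hmem.1.1, huv', hmem.2.2, ?_, ?_⟩
  · -- natural times
    have hp2 : Tendsto (fun k => (N k : ℝ) / ((n (m k) : ℕ) : ℝ) ^ (7/4 : ℝ)) atTop (𝓝 p.2) := by
      have h1 : Tendsto (fun k => (x (m k)).2) atTop (𝓝 p.2) :=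
        ((continuous_snd.tendsto p).comp hxp).comp hmt
      refine h1.congr fun k => ?_
      rw [hxm k]
    have hq2 : Tendsto (fun k => (1 / ((n (m k) : ℕ) : ℝ)) ^ (7/4 : ℝ) * (L k : ℝ)) atTop
        (𝓝 q.2) := by
      have h1 : Tendsto (fun k => (κ.Y (n (m k)) (F (m k))).2) atTop (𝓝 q.2) :=
        (continuous_snd.tendsto q).comp hYm
      refine h1.congr fun k => ?_
      rw [← hLd]
      rfl
    have hone : ∀ k, (1 / ((n (m k) : ℕ) : ℝ)) ^ (7/4 : ℝ) =
        1 / ((n (m k) : ℕ) : ℝ) ^ (7/4 : ℝ) := fun k => by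
      rw [Real.div_rpow zero_le_one (Nat.cast_nonneg _), Real.one_rpow]
    have h0 : Tendsto (fun k => 1 / ((n (m k) : ℕ) : ℝ) ^ (7/4 : ℝ)) atTop (𝓝 0) := by
      have h1 : Tendsto (fun k => ((n (m k) : ℕ) : ℝ) ^ (7/4 : ℝ)) atTop atTop :=
        (tendsto_rpow_atTop (by norm_num)).comp hnt'
      exact tendsto_const_nhds.div_atTop h1
    have h1 : Tendsto (fun k => (M k : ℝ) / ((n (m k) : ℕ) : ℝ) ^ (7/4 : ℝ)) atTop
        (𝓝 (p.2 * (v - u))) := by
      refine (hp2.mul hMN).congr fun k => ?_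
      have := (hNpos k).ne'
      field_simp
    have h2 : Tendsto (fun k => ((M (φ k) : ℝ) - 1) / ((n (m (φ k)) : ℕ) : ℝ) ^ (7/4 : ℝ)) atTop
        (𝓝 (q.2 * (v' - u'))) := by
      refine ((hq2.comp hφt).mul (hv'.sub hu')).congr fun k => ?_
      simp only [Function.comp]
      rw [hone]
      have h3 : (L (φ k) : ℝ) * (((k0 (φ k) + (M (φ k) - 1) : ℕ) : ℝ) / L (φ k) -
          ((k0 (φ k) : ℕ) : ℝ) / L (φ k)) = (M (φ k) : ℝ) - 1 := by
        rw [← hM1']
        rcases Nat.eq_zero_or_pos (L (φ k)) with h | h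
        · have := hk0L (φ k)
          have h4 : M (φ k) - 1 = 0 := by omega
          rw [h, h4]
          simp
        · have : (L (φ k) : ℝ) ≠ 0 := by positivity
          field_simp
          push_cast
          ring
      rw [mul_assoc, h3]
      ring
    have h3 := (h1.comp hφt).sub (h0.comp hφt)
    rw [sub_zero] at h3
    refine tendsto_nhds_unique h3 (h2.congr fun k => ?_)
    simp only [Function.comp]
    ring
  · -- points
    intro s hs0 hs1
    obtain ⟨i, hi⟩ : ∃ i : ℕ → ℕ, ∀ k, i k = ⌊s * ((M k : ℝ) - 1)⌋₊ := ⟨_, fun _ => rfl⟩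
    have hMr : ∀ k, (1 : ℝ) ≤ M k := fun k => by exact_mod_cast hM1 k
    have hnn : ∀ k, 0 ≤ s * ((M k : ℝ) - 1) := fun k => mul_nonneg hs0 (by linarith [hMr k])
    have hi1 : ∀ k, (i k : ℝ) ≤ s * ((M k : ℝ) - 1) := fun k => by
      rw [hi]
      exact Nat.floor_le (hnn k)
    have hi2 : ∀ k, s * ((M k : ℝ) - 1) < i k + 1 := fun k => by
      rw [hi]
      exact Nat.lt_floor_add_one _
    have hi3 : ∀ k, i k < M k := fun k => by
      rw [hi, Nat.floor_lt (hnn k)]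
      have : s * ((M k : ℝ) - 1) ≤ 1 * ((M k : ℝ) - 1) :=
        mul_le_mul_of_nonneg_right hs1 (by linarith [hMr k])
      linarith
    have hT1 : Tendsto (fun k => ((a k + 1 + i k : ℕ) : ℝ) / N k) atTop
        (𝓝 (u + s * (v - u))) := by
      have h1 : Tendsto (fun k => ((a k + 1 + i k : ℕ) : ℝ) / N k -
          ((a k : ℝ) / N k + s * ((M k : ℝ) / N k))) atTop (𝓝 0) := by
        refine squeeze_zero_norm (a := fun k => 2 / (N k : ℝ)) (fun k => ?_)
          (tendsto_const_nhds.div_atTop hNt)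
        have h2 : ((a k + 1 + i k : ℕ) : ℝ) / N k - ((a k : ℝ) / N k + s * ((M k : ℝ) / N k)) =
            (1 + i k - s * M k) / N k := by
          push_cast
          ring
        rw [h2, norm_div, Real.norm_natCast, Real.norm_eq_abs]
        refine div_le_div_of_nonneg_right ?_ (Nat.cast_nonneg _)
        have := hi1 k
        have := hi2 k
        rw [abs_le]
        constructor <;> linarith
      have h3 := h1.add (hau.add (hMN.const_mul s))
      rw [zero_add] at h3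
      refine h3.congr fun k => ?_
      ring
    have hT2 : Tendsto (fun k => ((k0 (φ k) + i (φ k) : ℕ) : ℝ) / L (φ k)) atTop
        (𝓝 (u' + s * (v' - u'))) := by
      have h1 : Tendsto (fun k => ((k0 (φ k) + i (φ k) : ℕ) : ℝ) / L (φ k) -
          (((k0 (φ k) : ℕ) : ℝ) / L (φ k) + s * (((k0 (φ k) + (M (φ k) - 1) : ℕ) : ℝ) / L (φ k) -
            ((k0 (φ k) : ℕ) : ℝ) / L (φ k)))) atTop (𝓝 0) := by
        refine squeeze_zero_norm (a := fun k => 1 / (L (φ k) : ℝ)) (fun k => ?_)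
          (tendsto_const_nhds.div_atTop (hLt.comp hφt))
        have h2 : ((k0 (φ k) + i (φ k) : ℕ) : ℝ) / L (φ k) -
          (((k0 (φ k) : ℕ) : ℝ) / L (φ k) + s * (((k0 (φ k) + (M (φ k) - 1) : ℕ) : ℝ) / L (φ k) -
            ((k0 (φ k) : ℕ) : ℝ) / L (φ k))) =
            (i (φ k) - s * ((M (φ k) : ℝ) - 1)) / L (φ k) := by
          rw [Nat.cast_add, Nat.cast_add, hM1']
          ring
        rw [h2, norm_div, Real.norm_natCast, Real.norm_eq_abs]
        refine div_le_div_of_nonneg_right ?_ (Nat.cast_nonneg _)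
        have := hi1 (φ k)
        have := hi2 (φ k)
        rw [abs_le]
        constructor <;> linarith
      have h3 := h1.add (hu'.add ((hv'.sub hu').const_mul s))
      rw [zero_add] at h3
      refine h3.congr fun k => ?_
      ring
    -- the points of the lattice path
    have hPt : Tendsto (fun k => H342L.pt (n (m k)) (orb (↑(F (m k))) (σ k) (a k + 1 + i k)).1)
        atTop (𝓝 (per p.1 (u + s * (v - u)))) := by
      have h1 : Tendsto (fun k => per p.1 (((a k + 1 + i k : ℕ) : ℝ) / N k)) atTop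
          (𝓝 (per p.1 (u + s * (v - u)))) := (hcont.tendsto _).comp hT1
      refine tendsto_of_tendsto_of_dist h1 ?_
      refine squeeze_zero (fun _ => dist_nonneg) (fun k => ?_) hinv
      rw [dist_comm]
      refine (hP (n (m k)) (F (m k)) (σ k) (N k) (hN k) (horb k) p.1 hp _ ?_ _).le
      have := hmd k
      rw [hxm k] at this
      exact this
    -- the values of the exploration path
    have hle : ∀ k, k0 k + i k ≤ L k := fun k => by
      have := hk0L k
      have := hi3 k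
      omega
    have hval : ∀ k, (κ.Y (n (m k)) (F (m k))).1 ⟨((k0 k + i k : ℕ) : ℝ) / L k,
        hI _ k (hle k)⟩ = pos (1 / ((n (m k) : ℕ) : ℝ))
          (shS (-κ.s (n (m k))) (orb (↑(F (m k))) (σ k) (a k + 1 + i k))) := by
      intro k
      rw [← hwalk k (i k) (hi3 k)]
      refine pl_at _ (fun j => pos (1 / ((n (m k) : ℕ) : ℝ)) ((κ.dm (n (m k))).walk
        (κ.cfg (n (m k)) (F (m k))) j)) (k0 k + i k) ?_ _ ?_
      · have := hle k
        rw [← hLd] at this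
        exact this
      · have := hLd k
        change ((k0 k + i k : ℕ) : ℝ) / L k = ((k0 k + i k : ℕ) : ℝ) /
          ((κ.dm (n (m k))).len (κ.cfg (n (m k)) (F (m k))) : ℕ)
        rw [this]
    have hQ : Tendsto (fun k => (κ.Y (n (m (φ k))) (F (m (φ k)))).1
        ⟨((k0 (φ k) + i (φ k) : ℕ) : ℝ) / L (φ k), hI _ (φ k) (hle (φ k))⟩) atTop
        (𝓝 (Set.IccExtend (zero_le_one : (0 : ℝ) ≤ 1) q.1 (u' + s * (v' - u')))) := by
      have h1 : Tendsto (fun k => Set.IccExtend (zero_le_one : (0 : ℝ) ≤ 1) q.1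
          (((k0 (φ k) + i (φ k) : ℕ) : ℝ) / L (φ k))) atTop
          (𝓝 (Set.IccExtend (zero_le_one : (0 : ℝ) ≤ 1) q.1 (u' + s * (v' - u')))) :=
        ((q.1.continuous.Icc_extend').tendsto _).comp hT2
      refine tendsto_of_tendsto_of_dist h1 ?_
      have h2 : Tendsto (fun k => (κ.Y (n (m (φ k))) (F (m (φ k)))).1) atTop (𝓝 q.1) :=
        ((continuous_fst.tendsto q).comp hYm).comp hφt
      refine squeeze_zero (fun _ => dist_nonneg) (fun k => ?_)
        (tendsto_iff_dist_tendsto_zero.1 h2)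
      rw [Set.IccExtend_of_mem _ _ (hI _ (φ k) (hle (φ k))), dist_comm]
      exact ContinuousMap.dist_apply_le_dist _
    have hR : Tendsto (fun k => κ.z + (κ.Y (n (m (φ k))) (F (m (φ k)))).1
        ⟨((k0 (φ k) + i (φ k) : ℕ) : ℝ) / L (φ k), hI _ (φ k) (hle (φ k))⟩) atTop
        (𝓝 (per p.1 (u + s * (v - u)))) := by
      refine tendsto_of_tendsto_of_dist (hPt.comp hφt) ?_
      refine squeeze_zero (g := fun k => 4 / ((n (m (φ k)) : ℕ) : ℝ)) (fun _ => dist_nonneg)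
        (fun k => ?_) (tendsto_const_nhds.div_atTop (hnt'.comp hφt))
      rw [hval, dist_comm, dist_eq_norm]
      exact pos_dist κ _ (hmpos (φ k)) _
    exact tendsto_nhds_unique hR (tendsto_const_nhds.add hQ)

end Pool.Agent.Y260.LG
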